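import Pool.Agent.Lib_helper11.GC45.R1
import Pool.Agent.Lib_helper5.G56.Wc

/-!
# The constant of the representation
-/

open MeasureTheory Set

namespace Pool.Agent.RC.REP

theorem Bc_eq {p : ℝ} (h5 : 5 < p) (h6 : p < 6) :
    (Bc (p - 1))⁻¹ = -Real.sin (Real.pi * p) / Real.pi := by
  obtain ⟨-, h⟩ := Pool.Agent.Lib_helper5.R56.beta_int (s := p - 5) (n := 1) (by linarith)
    (by push_cast; linarith)
  have e1 : Bc (p - 1) = ∫ z in Ioi (0 : ℝ), z ^ (p - 5 - 1) / (1 + z) ^ 1 := by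
    unfold Bc bet
    apply setIntegral_congr_fun measurableSet_Ioi
    intro z _
    simp only
    rw [show p - 1 - 4 - 1 = p - 5 - 1 by ring]
    rfl
  have e2 : Real.Gamma (p - 5) * Real.Gamma (((1 : ℕ) : ℝ) - (p - 5)) / Real.Gamma ((1 : ℕ) : ℝ) =
      Real.pi / Real.sin (Real.pi * (p - 5)) := by
    rw [Nat.cast_one, Real.Gamma_one, div_one, Real.Gamma_mul_Gamma_one_sub]
  have e3 : Real.sin (Real.pi * (p - 5)) = -Real.sin (Real.pi * p) := by
    rw [show Real.pi * (p - 5) = Real.pi * p - 2 * Real.pi - 2 * Real.pi - Real.pi by ring,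
      Real.sin_sub_pi, Real.sin_sub_two_pi, Real.sin_sub_two_pi]
  rw [e1, h, e2, e3, inv_div]

end Pool.Agent.RC.REP
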