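import Pool.Agent.Lib_helper11.GC56.S5
import Pool.Agent.Lib_helper56.RP.Rr
import Pool.Agent.Lib_helper56.RP.Pin4

/-!
# The representation of `G` on `(5,6)`
-/

open scoped BigOperators ComplexOrder Kronecker MatrixOrder Topology ENNReal
open MeasureTheory Set Matrix Filter

namespace Pool.Agent.RC.REP

open S24 SER DEC INE LAY

variable {ι : Type} [Fintype ι] [DecidableEq ι]

theorem intRR {p : ℝ} (h5 : 5 < p) (h6 : p < 6) : IntRR p := by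
  intro κ _ _ a D ha h
  exact Pool.Agent.Lib_helper56.RP.int_rr h5 h6 ha h

theorem pinLim {p : ℝ} (h5 : 5 < p) (h6 : p < 6) : PinLim p := by
  intro κ _ _ a D ha h
  obtain ⟨c, d, hc, hd, h0, he, hl⟩ := Pool.Agent.Lib_helper56.RP.pin_lim h5 h6 a ha h
  exact ⟨c, d, hc, hd, h0, he, hl⟩

/-- **the representation of `G` for `5 < p < 6`** -/
theorem rep56 {p : ℝ} (h5 : 5 < p) (h6 : p < 6) {a : ι → ℝ} (ha : ∀ i, 0 < a i)
    {D : Matrix ι ι ℂ} (h : IsPair (dg a) D) :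
    IntegrableOn (fun v : ℝ => v ^ (3 - p) * (((1 + v) ^ 3)⁻¹ * (1 + 2 * v)⁻¹) *
      (tau p (dg a) D v - tau p (dg a) D 0 + eta p (dg a) D 0 * v)) (Ioi 0) ∧
    G p (dg a) D = p * (p - 1) / 2 * (∑ i, ∑ j, ‖D i j‖ ^ 2 * hk p (a i) (a j)) +
      (2 ^ (p - 1) - 1 - p * (p - 1) / 2) * tau p (dg a) D 0 +
      (2 ^ (p - 2) + p - 2 - p * (p - 1) / 2) * eta p (dg a) D 0 +
      (-Real.sin (Real.pi * p) / Real.pi) * ∫ v in Ioi (0 : ℝ),
        v ^ (3 - p) * (((1 + v) ^ 3)⁻¹ * (1 + 2 * v)⁻¹) *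
        (tau p (dg a) D v - tau p (dg a) D 0 + eta p (dg a) D 0 * v) :=
  rep56_of h5 h6 (intRR h5 h6) (pinLim h5 h6) ha h

end Pool.Agent.RC.REP
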