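import Pool.Agent.Lib_helper11.GC45.R5
import Pool.Agent.Lib_helper30.MOD.Kl

/-!
# The representation of `G` on `(5,6)`: invariance under the shift `A → A + t`
-/

open scoped BigOperators ComplexOrder Kronecker MatrixOrder Topology ENNReal
open MeasureTheory Set Matrix Filter

namespace Pool.Agent.RC.REP

open S24 SER DEC INE LAY

variable {ι : Type} [Fintype ι] [DecidableEq ι]

/-- the weight -/
noncomputable def ww (p v : ℝ) : ℝ := v ^ (3 - p) * (((1 + v) ^ 3)⁻¹ * (1 + 2 * v)⁻¹)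

/-- the twice subtracted layer function -/
noncomputable def rr (p : ℝ) (A D : Matrix ι ι ℂ) (v : ℝ) : ℝ :=
  tau p A D v - tau p A D 0 + eta p A D 0 * v

/-- the shift of the diagonal -/
noncomputable def sh (a : ι → ℝ) (t : ℝ) : ι → ℝ := fun i => a i + t

/-- `G - C₁ m₁` -/
noncomputable def JJ (p : ℝ) (a : ι → ℝ) (D : Matrix ι ι ℂ) : ℝ :=
  G p (dg a) D - p * (p - 1) / 2 * m1 p a D

theorem sh_zero (a : ι → ℝ) : sh a 0 = a := by
  funext i; simp [sh]

theorem dg_sh (a : ι → ℝ) (t : ℝ) : dg (sh a t) = dg a + (t : ℂ) • (1 : Matrix ι ι ℂ) := by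
  unfold dg sh
  ext i j
  by_cases h : i = j
  · subst h; simp
  · simp [h]

theorem pair_sh {a : ι → ℝ} {D : Matrix ι ι ℂ} (h : IsPair (dg a) D) {t : ℝ} (ht : 0 ≤ t) :
    IsPair (dg (sh a t)) D := by
  rw [dg_sh]
  refine ⟨shift_posDef h.pos ht, ?_, ?_⟩
  · have e : dg a + (t : ℂ) • (1 : Matrix ι ι ℂ) - D = (dg a - D) + (t : ℂ) • (1 : Matrix ι ι ℂ) := by
      abel
    rw [e]; exact h.sub.add (TZ.psd_scalar ht)
  · have e : dg a + (t : ℂ) • (1 : Matrix ι ι ℂ) + D = (dg a + D) + (t : ℂ) • (1 : Matrix ι ι ℂ) := by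
      abel
    rw [e]; exact h.add.add (TZ.psd_scalar ht)

theorem trF_add_one (f : ℝ → ℝ) {M : Matrix ι ι ℂ} (hM : M.IsHermitian) (t : ℝ) :
    trF f (M + (t : ℂ) • (1 : Matrix ι ι ℂ)) = ∑ i, f (hM.eigenvalues i + t) := by
  have h := TZ.trF_affine f hM 1 t
  simpa using h

theorem hasDerivAt_trF_shift {q : ℝ} (hq : 1 ≤ q) {M : Matrix ι ι ℂ} (hM : M.IsHermitian) (t : ℝ) :
    HasDerivAt (fun t : ℝ => trF (fun x => x ^ q) (M + (t : ℂ) • (1 : Matrix ι ι ℂ)))
      (q * trF (fun x => x ^ (q - 1)) (M + (t : ℂ) • (1 : Matrix ι ι ℂ))) t := by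
  simp only [trF_add_one _ hM, Finset.mul_sum]
  apply HasDerivAt.fun_sum
  intro i _
  have h := ((hasDerivAt_id t).const_add (hM.eigenvalues i)).rpow_const (p := q) (Or.inr hq)
  refine h.congr_deriv ?_
  simp

theorem hasDerivAt_G {q : ℝ} (hq : 1 ≤ q) {a : ι → ℝ} {D : Matrix ι ι ℂ}
    (h : IsPair (dg a) D) (t : ℝ) :
    HasDerivAt (fun t : ℝ => G q (dg (sh a t)) D) (q * G (q - 1) (dg (sh a t)) D) t := by
  have e1 : ∀ t : ℝ, dg a + (t : ℂ) • (1 : Matrix ι ι ℂ) + D =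
      (dg a + D) + (t : ℂ) • (1 : Matrix ι ι ℂ) := fun t => by abel
  have e2 : ∀ t : ℝ, dg a + (t : ℂ) • (1 : Matrix ι ι ℂ) - D =
      (dg a - D) + (t : ℂ) • (1 : Matrix ι ι ℂ) := fun t => by abel
  unfold G
  simp only [dg_sh, e1, e2]
  have h1 := hasDerivAt_trF_shift hq h.add.isHermitian t
  have h2 := hasDerivAt_trF_shift hq h.sub.isHermitian t
  have h3 := hasDerivAt_trF_shift hq h.pos.isHermitian t
  refine (((h1.add h2).div_const 2).sub h3).congr_deriv ?_
  ring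

theorem hasDerivAt_hk {q : ℝ} (hq : 3 ≤ q) (x y t : ℝ) :
    HasDerivAt (fun t : ℝ => hk q (x + t) (y + t)) ((q - 2) * hk (q - 1) (x + t) (y + t)) t := by
  have main : ∀ x y : ℝ, x < y →
      HasDerivAt (fun t : ℝ => hk q (x + t) (y + t)) ((q - 2) * hk (q - 1) (x + t) (y + t)) t := by
    intro x y hxy
    have e : (fun t : ℝ => hk q (x + t) (y + t)) = fun t =>
        ((y + t) ^ (q - 1) - (x + t) ^ (q - 1)) / ((q - 1) * (y - x)) := by
      funext t
      rw [B1.hk_eq (by linarith) (by linarith)]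
      congr 2
      ring
    rw [e, B1.hk_eq (by linarith) (by linarith)]
    have h1 := ((hasDerivAt_id t).const_add y).rpow_const (p := q - 1) (Or.inr (by linarith))
    have h2 := ((hasDerivAt_id t).const_add x).rpow_const (p := q - 1) (Or.inr (by linarith))
    refine ((h1.sub h2).div_const _).congr_deriv ?_
    have n1 : q - 1 ≠ 0 := by linarith
    have n2 : q - 2 ≠ 0 := by linarith
    have n3 : y - x ≠ 0 := by linarith
    have n4 : q - 1 - 1 ≠ 0 := by linarith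
    rw [show (q - 1 - 1) * (y + t - (x + t)) = (q - 2) * (y - x) by ring]
    simp only [id]
    field_simp
  rcases lt_trichotomy x y with h | h | h
  · exact main x y h
  · subst h
    simp only [B1.hk_self]
    have h1 := ((hasDerivAt_id t).const_add x).rpow_const (p := q - 2) (Or.inr (by linarith))
    refine h1.congr_deriv ?_
    simp only [id]
    rw [show q - 1 - 2 = q - 2 - 1 by ring]
    ring
  · have e : (fun t : ℝ => hk q (x + t) (y + t)) = fun t => hk q (y + t) (x + t) := by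
      funext t; exact B1.hk_comm _ _ _
    rw [e, B1.hk_comm]
    exact main y x h

theorem hasDerivAt_m1 {q : ℝ} (hq : 3 ≤ q) (a : ι → ℝ) (D : Matrix ι ι ℂ) (t : ℝ) :
    HasDerivAt (fun t : ℝ => m1 q (sh a t) D) ((q - 2) * m1 (q - 1) (sh a t) D) t := by
  unfold m1 sh
  simp only [Finset.mul_sum]
  apply HasDerivAt.fun_sum
  intro i _
  apply HasDerivAt.fun_sum
  intro j _
  refine ((hasDerivAt_hk hq (a i) (a j) t).const_mul _).congr_deriv ?_
  ring

theorem hasDerivAt_JJ {q : ℝ} (hq : 3 ≤ q) {a : ι → ℝ} {D : Matrix ι ι ℂ}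
    (h : IsPair (dg a) D) (t : ℝ) :
    HasDerivAt (fun t : ℝ => JJ q (sh a t) D) (q * JJ (q - 1) (sh a t) D) t := by
  unfold JJ
  refine ((hasDerivAt_G (by linarith) h t).sub
    ((hasDerivAt_m1 hq a D t).const_mul _)).congr_deriv ?_
  ring

theorem continuous_JJ {q : ℝ} (hq : 3 ≤ q) {a : ι → ℝ} {D : Matrix ι ι ℂ}
    (h : IsPair (dg a) D) : Continuous (fun t : ℝ => JJ q (sh a t) D) :=
  continuous_iff_continuousAt.2 fun t => (hasDerivAt_JJ hq h t).continuousAt

/-! ## the layer function -/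

theorem hasDerivAt_pp {q : ℝ} (hq : 1 < q) (x : ℝ) : HasDerivAt (pp q) (q * pp (q - 1) x) x := by
  have h := tangent_hasDerivAt (f := pp q) (g := fun y => -(q * gp q y)) (fun z z' => by
    have := pp_tangent hq z' z
    linarith) ((continuous_gp hq.le).const_mul q).neg x
  rw [neg_neg] at h
  exact h

theorem tau_sh (p : ℝ) {a : ι → ℝ} {D : Matrix ι ι ℂ} (h : IsPair (dg a) D) (z u : ℝ) :
    tau p (dg (sh a u)) D z = ∑ i, pp p ((h.herm1 z).eigenvalues i - z * u) +
      ∑ i, pp p ((h.herm2 z).eigenvalues i - z * u) := by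
  unfold tau
  rw [← trF_shift _ (h.herm1 z) (z * u), ← trF_shift _ (h.herm2 z) (z * u)]
  congr 2
  · rw [dg_sh]
    push_cast
    rw [mul_smul, add_sub_right_comm, smul_add]
    abel
  · rw [dg_sh]
    push_cast
    rw [mul_smul, add_right_comm, smul_add]
    abel

theorem hasDerivAt_tau_sh {p : ℝ} (hp : 1 < p) {a : ι → ℝ} {D : Matrix ι ι ℂ}
    (h : IsPair (dg a) D) (z u : ℝ) :
    HasDerivAt (fun u : ℝ => tau p (dg (sh a u)) D z)
      (-(p * z * tau (p - 1) (dg (sh a u)) D z)) u := by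
  simp only [tau_sh _ h]
  have hd : ∀ x : ℝ, HasDerivAt (fun u : ℝ => pp p (x - z * u)) (-(p * z * pp (p - 1) (x - z * u))) u := by
    intro x
    have h1 : HasDerivAt (fun u : ℝ => x - z * u) (-z) u := by
      have := ((hasDerivAt_id u).const_mul z).const_sub x
      simpa using this
    refine ((hasDerivAt_pp hp (x - z * u)).comp u h1).congr_deriv ?_
    ring
  refine ((HasDerivAt.fun_sum fun i _ => hd _).add (HasDerivAt.fun_sum fun i _ => hd _)).congr_deriv ?_
  rw [← Finset.sum_add_distrib, ← Finset.sum_add_distrib, Finset.mul_sum, ← Finset.sum_neg_distrib]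
  apply Finset.sum_congr rfl
  intro i _
  ring

theorem tau_sh_zero (p : ℝ) {a : ι → ℝ} {D : Matrix ι ι ℂ} (u : ℝ) :
    tau p (dg (sh a u)) D 0 = tau p (dg a) D 0 := by
  unfold tau
  simp

theorem trace_cfc_re_eq {M : Matrix ι ι ℂ} (h : M.IsHermitian) (f : ℝ → ℝ) :
    (trace (cfc f M)).re = trF f M := by
  unfold trF
  rw [dif_pos h, h.cfc_eq, Matrix.IsHermitian.cfc, Unitary.conjStarAlgAut_apply]
  rw [Matrix.mul_assoc, trace_mul_comm, Matrix.mul_assoc]
  have h1 : (star (h.eigenvectorUnitary : Matrix ι ι ℂ)) * (h.eigenvectorUnitary : Matrix ι ι ℂ) = 1 :=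
    Matrix.mem_unitaryGroup_iff'.1 h.eigenvectorUnitary.2
  rw [h1, Matrix.mul_one, trace_diagonal]
  simp

theorem eta_sh_zero (p : ℝ) {a : ι → ℝ} {D : Matrix ι ι ℂ} (h : IsPair (dg a) D) (u : ℝ) :
    eta p (dg (sh a u)) D 0 = eta p (dg a) D 0 + p * u * tau (p - 1) (dg a) D 0 := by
  have hD := h.hermD
  unfold eta tau
  have e1 : ∀ X : Matrix ι ι ℂ, D - ((0 : ℝ) : ℂ) • X = D := fun X => by simp
  have e2 : ∀ X : Matrix ι ι ℂ, -D - ((0 : ℝ) : ℂ) • X = -D := fun X => by simp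
  simp only [e1, e2]
  have t1 : dg (sh a u) - D = (dg a - D) + (u : ℂ) • (1 : Matrix ι ι ℂ) := by rw [dg_sh]; abel
  have t2 : dg (sh a u) + D = (dg a + D) + (u : ℂ) • (1 : Matrix ι ι ℂ) := by rw [dg_sh]; abel
  have g1 : pp (p - 1) = gp p := rfl
  rw [t1, t2, g1, ← trace_cfc_re_eq hD, ← trace_cfc_re_eq hD.neg]
  simp only [mul_add, mul_smul_comm, mul_one, Matrix.trace_add, Complex.add_re, re_trace_smul]
  ring

end Pool.Agent.RC.REP
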