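import Pool.Agent.Lib_helper11.GC56.S1

/-!
# The representation of `G` on `(5,6)`: invariance under the shift, the main step
-/

open scoped BigOperators ComplexOrder Kronecker MatrixOrder Topology ENNReal
open MeasureTheory Set Matrix Filter

namespace Pool.Agent.RC.REP

open S24 SER DEC INE LAY

variable {ι : Type} [Fintype ι] [DecidableEq ι]

theorem ww_nonneg {p v : ℝ} (hv : 0 < v) : 0 ≤ ww p v := by
  unfold ww
  have := Real.rpow_nonneg hv.le (3 - p)
  positivity

theorem ww_mul {p v : ℝ} (hv : 0 < v) : ww p v * v = ww (p - 1) v := by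
  unfold ww
  have e : v ^ (3 - (p - 1)) = v ^ (3 - p) * v := by
    nth_rewrite 3 [← Real.rpow_one v]
    rw [← Real.rpow_add hv]
    congr 1
    ring
  rw [e]
  ring

theorem measurable_ww (p : ℝ) : Measurable (ww p) := by
  unfold ww
  have h1 : Measurable fun v : ℝ => v ^ (3 - p) := measurable_id.pow_const _
  have h2 : Measurable fun v : ℝ => (((1 + v) ^ 3)⁻¹ * (1 + 2 * v)⁻¹) := by fun_prop
  exact h1.mul h2

/-- the functional of the representation -/
noncomputable def FF5 (p : ℝ) (a : ι → ℝ) (D : Matrix ι ι ℂ) : ℝ :=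
  JJ p a D - (2 ^ (p - 1) - 1 - p * (p - 1) / 2) * tau p (dg a) D 0 -
    (2 ^ (p - 2) + p - 2 - p * (p - 1) / 2) * eta p (dg a) D 0 -
    (Bc (p - 1))⁻¹ * ∫ v in Ioi (0 : ℝ), ww p v * rr p (dg a) D v

theorem continuous_tau2 {p : ℝ} (hp : 0 ≤ p) {a : ι → ℝ} {D : Matrix ι ι ℂ}
    (h : IsPair (dg a) D) : Continuous fun z : ℝ × ℝ => tau p (dg (sh a z.2)) D z.1 := by
  have hD := h.hermD
  have hA := h.pos.isHermitian
  have hsh : ∀ u : ℝ, (dg (sh a u)).IsHermitian := fun u => by
    rw [dg_sh]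
    exact hA.add (isHermitian_real_smul u Matrix.isHermitian_one)
  unfold tau
  simp only [dg_sh]
  have hsh' : ∀ u : ℝ, (dg a + (u : ℂ) • (1 : Matrix ι ι ℂ)).IsHermitian := fun u =>
    hA.add (isHermitian_real_smul u Matrix.isHermitian_one)
  exact (continuous_trF (pp p) (continuous_pp hp)
    (fun z : ℝ × ℝ => D - (z.1 : ℂ) • (dg a + (z.2 : ℂ) • (1 : Matrix ι ι ℂ) - D)) (by fun_prop)
    (fun z => hD.sub (isHermitian_real_smul _ ((hsh' z.2).sub hD)))).add
    (continuous_trF (pp p) (continuous_pp hp)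
    (fun z : ℝ × ℝ => -D - (z.1 : ℂ) • (dg a + (z.2 : ℂ) • (1 : Matrix ι ι ℂ) + D)) (by fun_prop)
    (fun z => hD.neg.sub (isHermitian_real_smul _ ((hsh' z.2).add hD))))

/-- first integral: in the shift -/
theorem rr_sub {p : ℝ} (hp : 2 < p) {a : ι → ℝ} {D : Matrix ι ι ℂ}
    (h : IsPair (dg a) D) (z : ℝ) {t : ℝ} (ht : 0 ≤ t) :
    rr p (dg (sh a t)) D z - rr p (dg a) D z = ∫ u in Ioc (0 : ℝ) t,
      p * z * (tau (p - 1) (dg a) D 0 - tau (p - 1) (dg (sh a u)) D z) := by
  have hc : Continuous fun u : ℝ =>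
      p * z * (tau (p - 1) (dg a) D 0 - tau (p - 1) (dg (sh a u)) D z) := by
    have := (continuous_tau2 (p := p - 1) (by linarith) h).comp
      ((continuous_const (y := z)).prodMk continuous_id)
    exact continuous_const.mul (continuous_const.sub this)
  have hd : ∀ u : ℝ, HasDerivAt (fun u : ℝ => p * z * (tau (p - 1) (dg a) D 0 * u) +
      tau p (dg (sh a u)) D z)
      (p * z * (tau (p - 1) (dg a) D 0 - tau (p - 1) (dg (sh a u)) D z)) u := by
    intro u
    have h1 := (((hasDerivAt_id u).const_mul (tau (p - 1) (dg a) D 0)).const_mul (p * z)).add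
      (hasDerivAt_tau_sh (p := p) (by linarith) h z u)
    refine h1.congr_deriv ?_
    ring
  rw [← intervalIntegral.integral_of_le ht,
    intervalIntegral.integral_eq_sub_of_hasDerivAt (fun u _ => hd u) (hc.intervalIntegrable _ _)]
  unfold rr
  rw [sh_zero, tau_sh_zero, eta_sh_zero p h]
  ring

theorem JJ_sub {p : ℝ} (hp : 4 < p) {a : ι → ℝ} {D : Matrix ι ι ℂ}
    (h : IsPair (dg a) D) (c : ℝ) {t : ℝ} (ht : 0 ≤ t) :
    JJ p (sh a t) D - JJ p a D - p * c * t = ∫ u in Ioc (0 : ℝ) t,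
      p * (JJ (p - 1) (sh a u) D - c) := by
  have hc : Continuous fun u : ℝ => p * (JJ (p - 1) (sh a u) D - c) :=
    continuous_const.mul ((continuous_JJ (q := p - 1) (by linarith) h).sub continuous_const)
  have hd : ∀ u : ℝ, HasDerivAt (fun u : ℝ => JJ p (sh a u) D - p * c * u)
      (p * (JJ (p - 1) (sh a u) D - c)) u := by
    intro u
    have h1 := (hasDerivAt_JJ (q := p) (by linarith) h u).sub ((hasDerivAt_id u).const_mul (p * c))
    refine h1.congr_deriv ?_
    ring
  rw [← intervalIntegral.integral_of_le ht,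
    intervalIntegral.integral_eq_sub_of_hasDerivAt (fun u _ => hd u) (hc.intervalIntegrable _ _)]
  rw [sh_zero]
  ring

theorem shift {p : ℝ} (h5 : 5 < p) (h6 : p < 6) {a : ι → ℝ} (ha : ∀ i, 0 < a i)
    {D : Matrix ι ι ℂ} (h : IsPair (dg a) D) {t : ℝ} (ht : 0 ≤ t)
    (i0 : IntegrableOn (fun v : ℝ => ww p v * rr p (dg a) D v) (Ioi 0))
    (it : IntegrableOn (fun v : ℝ => ww p v * rr p (dg (sh a t)) D v) (Ioi 0)) :
    FF5 p (sh a t) D = FF5 p a D := by
  set c : ℝ := (2 ^ (p - 1 - 1) - 1 - (p - 1) * (p - 1 - 1) / 2) * tau (p - 1) (dg a) D 0 with hc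
  have hB : 0 < Bc (p - 1) := Bc_pos (by linarith) (by linarith)
  -- REP for `p - 1`
  have R : ∀ u : ℝ, 0 ≤ u → IntegrableOn (fun v : ℝ => ww (p - 1) v *
      (tau (p - 1) (dg a) D 0 - tau (p - 1) (dg (sh a u)) D v)) (Ioi 0) ∧
      ∫ v in Ioi (0 : ℝ), ww (p - 1) v *
        (tau (p - 1) (dg a) D 0 - tau (p - 1) (dg (sh a u)) D v) =
        Bc (p - 1) * (JJ (p - 1) (sh a u) D - c) := by
    intro u hu
    have hau : ∀ i, 0 < sh a u i := fun i => by
      unfold sh; have := ha i; linarith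
    obtain ⟨r1, r2⟩ := rep (p := p - 1) (by linarith) (by linarith) hau (pair_sh h hu)
    rw [tau_sh_zero] at r1 r2
    refine ⟨r1, ?_⟩
    have r3 : (Bc (p - 1))⁻¹ * ∫ v in Ioi (0 : ℝ), ww (p - 1) v *
        (tau (p - 1) (dg a) D 0 - tau (p - 1) (dg (sh a u)) D v) =
        JJ (p - 1) (sh a u) D - c := by
      unfold JJ
      rw [r2, hc]
      unfold ww
      ring
    rw [← r3]
    field_simp
  have hnn : ∀ u v : ℝ, 0 ≤ u → 0 < v →
      0 ≤ tau (p - 1) (dg a) D 0 - tau (p - 1) (dg (sh a u)) D v := by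
    intro u v hu hv
    have := tau_le_zero (p := p - 1) (by linarith) (pair_sh h hu) hv.le
    rw [tau_sh_zero] at this
    linarith
  set K : ℝ → ℝ → ℝ := fun v u => p * (ww (p - 1) v *
    (tau (p - 1) (dg a) D 0 - tau (p - 1) (dg (sh a u)) D v)) with hK
  have hKm : Measurable (Function.uncurry fun v u : ℝ => ENNReal.ofReal (K v u)) := by
    have m1 : Measurable fun z : ℝ × ℝ => ww (p - 1) z.1 := (measurable_ww _).comp measurable_fst
    have m2 := (continuous_tau2 (p := p - 1) (by linarith) h).measurable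
    exact ((m1.mul (measurable_const.sub m2)).const_mul p).ennreal_ofReal
  have L : ∀ v ∈ Ioi (0 : ℝ), ENNReal.ofReal (ww p v * rr p (dg (sh a t)) D v -
      ww p v * rr p (dg a) D v) = ∫⁻ u in Ioc (0 : ℝ) t, ENNReal.ofReal (K v u) := by
    intro v hv
    have hv0 : (0 : ℝ) < v := hv
    have hcont : Continuous (K v) := by
      have := (continuous_tau2 (p := p - 1) (by linarith) h).comp
        ((continuous_const (y := v)).prodMk continuous_id)
      exact continuous_const.mul (continuous_const.mul (continuous_const.sub this))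
    have hi : IntegrableOn (K v) (Ioc 0 t) :=
      (hcont.integrableOn_Icc (a := 0) (b := t)).mono_set Ioc_subset_Icc_self
    rw [← ofReal_integral_eq_lintegral_ofReal hi]
    · congr 1
      rw [← mul_sub, rr_sub (by linarith) h v ht, ← integral_const_mul]
      apply setIntegral_congr_fun measurableSet_Ioc
      intro u _
      simp only [hK]
      rw [← ww_mul hv0]
      ring
    · filter_upwards [ae_restrict_mem measurableSet_Ioc] with u hu
      exact mul_nonneg (by linarith) (mul_nonneg (ww_nonneg hv0) (hnn u v hu.1.le hv0))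
  have Rr : ∀ u ∈ Ioc (0 : ℝ) t, ENNReal.ofReal (Bc (p - 1) * (p * (JJ (p - 1) (sh a u) D - c))) =
      ∫⁻ v in Ioi (0 : ℝ), ENNReal.ofReal (K v u) := by
    intro u hu
    obtain ⟨r1, r2⟩ := R u hu.1.le
    rw [← ofReal_integral_eq_lintegral_ofReal (r1.const_mul p)]
    · rw [integral_const_mul, r2]
      congr 1
      ring
    · filter_upwards [ae_restrict_mem measurableSet_Ioi] with v hv
      exact mul_nonneg (by linarith) (mul_nonneg (ww_nonneg hv) (hnn u v hu.1.le hv))
  have hg0 : ∀ u ∈ Ioc (0 : ℝ) t, 0 ≤ Bc (p - 1) * (p * (JJ (p - 1) (sh a u) D - c)) := by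
    intro u hu
    obtain ⟨-, r2⟩ := R u hu.1.le
    have h0 : 0 ≤ ∫ v in Ioi (0 : ℝ), ww (p - 1) v *
        (tau (p - 1) (dg a) D 0 - tau (p - 1) (dg (sh a u)) D v) :=
      setIntegral_nonneg measurableSet_Ioi fun v hv => mul_nonneg (ww_nonneg hv)
        (hnn u v hu.1.le hv)
    rw [r2] at h0
    have h1 : Bc (p - 1) * (p * (JJ (p - 1) (sh a u) D - c)) =
        p * (Bc (p - 1) * (JJ (p - 1) (sh a u) D - c)) := by ring
    rw [h1]
    exact mul_nonneg (by linarith) h0
  have T := lintegral_lintegral_swap (μ := volume.restrict (Ioi (0 : ℝ)))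
    (ν := volume.restrict (Ioc (0 : ℝ) t)) hKm.aemeasurable
  have hic : Continuous fun u : ℝ => Bc (p - 1) * (p * (JJ (p - 1) (sh a u) D - c)) :=
    continuous_const.mul (continuous_const.mul
      ((continuous_JJ (q := p - 1) (by linarith) h).sub continuous_const))
  have hi2 : IntegrableOn (fun u : ℝ => Bc (p - 1) * (p * (JJ (p - 1) (sh a u) D - c)))
      (Ioc 0 t) := (hic.integrableOn_Icc (a := 0) (b := t)).mono_set Ioc_subset_Icc_self
  have hfn : ∀ v ∈ Ioi (0 : ℝ), 0 ≤ ww p v * rr p (dg (sh a t)) D v - ww p v * rr p (dg a) D v := by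
    intro v hv
    rw [← mul_sub, rr_sub (by linarith) h v ht]
    have hv0 : (0 : ℝ) < v := hv
    exact mul_nonneg (ww_nonneg hv) (setIntegral_nonneg measurableSet_Ioc fun u hu =>
      mul_nonneg (by positivity) (hnn u v hu.1.le hv))
  have E1 : ENNReal.ofReal (∫ v in Ioi (0 : ℝ), (ww p v * rr p (dg (sh a t)) D v -
      ww p v * rr p (dg a) D v)) = ENNReal.ofReal (∫ u in Ioc (0 : ℝ) t,
        Bc (p - 1) * (p * (JJ (p - 1) (sh a u) D - c))) := by
    have isub : IntegrableOn (fun v : ℝ => ww p v * rr p (dg (sh a t)) D v -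
      ww p v * rr p (dg a) D v) (Ioi 0) := it.sub i0
    rw [ofReal_integral_eq_lintegral_ofReal isub, ofReal_integral_eq_lintegral_ofReal hi2]
    · calc _ = _ := setLIntegral_congr_fun measurableSet_Ioi L
        _ = _ := T
        _ = _ := (setLIntegral_congr_fun measurableSet_Ioc Rr).symm
    · filter_upwards [ae_restrict_mem measurableSet_Ioc] with u hu
      exact hg0 u hu
    · filter_upwards [ae_restrict_mem measurableSet_Ioi] with v hv
      exact hfn v hv
  have E2 := (ENNReal.ofReal_eq_ofReal_iff (setIntegral_nonneg measurableSet_Ioi hfn)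
    (setIntegral_nonneg measurableSet_Ioc hg0)).1 E1
  rw [integral_const_mul, ← JJ_sub (by linarith) h c ht] at E2
  have E3 : ∫ v in Ioi (0 : ℝ), (ww p v * rr p (dg (sh a t)) D v - ww p v * rr p (dg a) D v) =
      (∫ v in Ioi (0 : ℝ), ww p v * rr p (dg (sh a t)) D v) -
      ∫ v in Ioi (0 : ℝ), ww p v * rr p (dg a) D v := integral_sub it i0
  rw [E3] at E2
  have E4 : (Bc (p - 1))⁻¹ * (∫ v in Ioi (0 : ℝ), ww p v * rr p (dg (sh a t)) D v) =
      (Bc (p - 1))⁻¹ * (∫ v in Ioi (0 : ℝ), ww p v * rr p (dg a) D v) +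
      (JJ p (sh a t) D - JJ p a D - p * c * t) := by
    have : (∫ v in Ioi (0 : ℝ), ww p v * rr p (dg (sh a t)) D v) =
        (∫ v in Ioi (0 : ℝ), ww p v * rr p (dg a) D v) +
        Bc (p - 1) * (JJ p (sh a t) D - JJ p a D - p * c * t) := by linarith
    rw [this]
    field_simp
  unfold FF5
  rw [E4, tau_sh_zero, eta_sh_zero p h, hc, show p - 1 - 1 = p - 2 by ring]
  ring

end Pool.Agent.RC.REP
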