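import Pool.Agent.Lib_helper11.GC56.S2

/-!
# The representation of `G` on `(5,6)`: commuting pairs
-/

open scoped BigOperators ComplexOrder Kronecker MatrixOrder Topology ENNReal
open MeasureTheory Set Matrix Filter

namespace Pool.Agent.RC.REP

open S24 SER DEC INE LAY

variable {ι : Type} [Fintype ι] [DecidableEq ι]

theorem pair_diag {c d : ι → ℝ} (hc : ∀ i, 0 < c i) (hd : ∀ i, |d i| ≤ c i) :
    IsPair (dg c) (dg d) := by
  refine ⟨pd_dg hc, ?_, ?_⟩
  · rw [dg_sub]; exact psd_dg fun i => by linarith [hd i, le_abs_self (d i)]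
  · rw [dg_add]; exact psd_dg fun i => by linarith [hd i, neg_abs_le (d i)]

theorem G_diag (p : ℝ) (c d : ι → ℝ) :
    G p (dg c) (dg d) = ∑ i, (((c i + d i) ^ p + (c i - d i) ^ p) / 2 - c i ^ p) := by
  unfold G
  rw [dg_add, dg_sub, trF_dg, trF_dg, trF_dg, ← Finset.sum_add_distrib, Finset.sum_div,
    ← Finset.sum_sub_distrib]

theorem m1_diag (p : ℝ) (c d : ι → ℝ) :
    m1 p c (dg d) = ∑ i, d i ^ 2 * c i ^ (p - 2) := by
  unfold m1
  apply Finset.sum_congr rfl
  intro i _
  rw [Finset.sum_eq_single i]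
  · rw [B1.hk_self]
    unfold dg
    rw [Matrix.diagonal_apply_eq, Complex.norm_real, Real.norm_eq_abs, sq_abs]
  · intro j _ hj
    unfold dg
    rw [Matrix.diagonal_apply_ne _ (Ne.symm hj)]
    simp
  · intro hi; exact absurd (Finset.mem_univ i) hi

theorem tau_diag (p : ℝ) (c d : ι → ℝ) (z : ℝ) :
    tau p (dg c) (dg d) z = ∑ i, (pp p (d i - z * (c i - d i)) + pp p (-d i - z * (c i + d i))) := by
  unfold tau
  rw [dg_sub, dg_smul, dg_sub, dg_neg, dg_add, dg_smul, dg_sub, trF_dg, trF_dg,
    ← Finset.sum_add_distrib]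

theorem eta_diag {p : ℝ} (hp : 1 < p) {c d : ι → ℝ} (h : IsPair (dg c) (dg d)) :
    eta p (dg c) (dg d) 0 =
      ∑ i, p * (pp (p - 1) (d i) * (c i - d i) + pp (p - 1) (-d i) * (c i + d i)) := by
  have h1 := hasDerivAt_tau hp h 0
  have e : tau p (dg c) (dg d) = fun z => ∑ i, (pp p (d i - z * (c i - d i)) +
      pp p (-d i - z * (c i + d i))) := by
    funext z; exact tau_diag p c d z
  rw [e] at h1
  have hd : ∀ x y : ℝ, HasDerivAt (fun z : ℝ => pp p (x - z * y)) (-(p * pp (p - 1) x * y)) 0 := by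
    intro x y
    have h2 : HasDerivAt (fun z : ℝ => x - z * y) (-y) 0 := by
      have := ((hasDerivAt_id (0 : ℝ)).mul_const y).const_sub x
      simpa using this
    have h3 := (hasDerivAt_pp hp (x - 0 * y)).comp 0 h2
    refine h3.congr_deriv ?_
    rw [zero_mul, sub_zero]
    ring
  have h2 : HasDerivAt (fun z => ∑ i, (pp p (d i - z * (c i - d i)) +
      pp p (-d i - z * (c i + d i)))) (∑ i, (-(p * pp (p - 1) (d i) * (c i - d i)) +
        -(p * pp (p - 1) (-d i) * (c i + d i)))) 0 :=
    HasDerivAt.fun_sum fun i _ => (hd _ _).add (hd _ _)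
  have h3 := h1.unique h2
  have h4 : eta p (dg c) (dg d) 0 = -∑ i, (-(p * pp (p - 1) (d i) * (c i - d i)) +
        -(p * pp (p - 1) (-d i) * (c i + d i))) := by linarith
  rw [h4, ← Finset.sum_neg_distrib]
  apply Finset.sum_congr rfl
  intro i _
  ring

/-- integrability of the remainder, for all pairs -/
def IntRR (p : ℝ) : Prop :=
  ∀ (κ : Type) [Fintype κ] [DecidableEq κ] (a : κ → ℝ) (D : Matrix κ κ ℂ), (∀ i, 0 < a i) →
    IsPair (dg a) D → IntegrableOn (fun v : ℝ => ww p v * rr p (dg a) D v) (Ioi 0)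

theorem pp_zero {p : ℝ} (hp : 0 < p) {x : ℝ} (hx : x ≤ 0) : pp p x = 0 := by
  unfold pp
  rw [max_eq_right hx, Real.zero_rpow hp.ne']

theorem pp_pos {p x : ℝ} (hx : 0 ≤ x) : pp p x = x ^ p := by
  unfold pp
  rw [max_eq_left hx]

/-- scalars -/
theorem FF5_scalar {p : ℝ} (h5 : 5 < p) (h6 : p < 6) (hI : IntRR p) {c d : ℝ} (hc : 0 < c)
    (hd : |d| ≤ c) : FF5 p (fun _ : Unit => c) (dg fun _ : Unit => d) = 0 := by
  by_cases h0 : d = 0
  · subst h0
    have h := pair_diag (ι := Unit) (c := fun _ => c) (d := fun _ => 0) (fun _ => hc)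
      (fun _ => by simpa using hc.le)
    have hp0 : (0 : ℝ) < p := by linarith
    have t0 : ∀ z : ℝ, 0 ≤ z → tau p (dg fun _ : Unit => c) (dg fun _ : Unit => (0 : ℝ)) z = 0 := by
      intro z hz
      rw [tau_diag]
      have := mul_nonneg hz hc.le
      apply Finset.sum_eq_zero
      intro i _
      rw [pp_zero hp0 (by simpa using this), pp_zero hp0 (by simpa using this), add_zero]
    have e0 : eta p (dg fun _ : Unit => c) (dg fun _ : Unit => (0 : ℝ)) 0 = 0 := by
      rw [eta_diag (by linarith) h]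
      apply Finset.sum_eq_zero
      intro i _
      rw [pp_zero (by linarith) le_rfl, pp_zero (by linarith) (by simp)]
      ring
    have hint : ∫ v in Ioi (0 : ℝ), ww p v *
        rr p (dg fun _ : Unit => c) (dg fun _ : Unit => (0 : ℝ)) v = 0 := by
      rw [setIntegral_congr_fun (g := fun _ => (0 : ℝ)) measurableSet_Ioi (fun v hv => by
        have hv0 : (0 : ℝ) < v := hv
        simp only [rr]
        rw [t0 v hv0.le, t0 0 le_rfl, e0]
        ring)]
      simp
    unfold FF5 JJ
    rw [hint, e0, t0 0 le_rfl, G_diag, m1_diag]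
    simp
  · have habs : 0 < |d| := abs_pos.2 h0
    set a : Unit → ℝ := fun _ => |d| with ha
    have h : IsPair (dg a) (dg fun _ : Unit => d) := pair_abs (ι := Unit) (d := fun _ => d)
      (fun _ => h0)
    have ht : 0 ≤ c - |d| := sub_nonneg.2 hd
    have ec : sh a (c - |d|) = fun _ : Unit => c := by
      funext i; unfold sh; rw [ha]; ring
    have hs := shift h5 h6 (fun i => habs) h ht (hI Unit a _ (fun _ => habs) h) (by
      rw [ec]
      exact hI Unit _ _ (fun _ => hc) (pair_diag (fun _ => hc) (fun _ => hd)))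
    rw [ec] at hs
    rw [hs]
    have hp0 : (0 : ℝ) < p := by linarith
    have t0 : ∀ z : ℝ, 0 ≤ z → tau p (dg a) (dg fun _ : Unit => d) z = |d| ^ p := by
      intro z hz
      rw [tau_diag]
      simp only [Finset.univ_unique, Finset.sum_const, Finset.card_singleton, one_smul, ha]
      rcases le_total 0 d with hh | hh
      · rw [abs_of_nonneg hh, sub_self, mul_zero, sub_zero, pp_pos hh, pp_zero hp0 (by nlinarith),
          add_zero]
      · rw [abs_of_nonpos hh, neg_add_cancel, mul_zero, sub_zero, pp_zero hp0 (by nlinarith),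
          pp_pos (by linarith), zero_add]
    have e0 : eta p (dg a) (dg fun _ : Unit => d) 0 = 0 := by
      rw [eta_diag (by linarith) h]
      apply Finset.sum_eq_zero
      intro i _
      simp only [ha]
      rcases le_total 0 d with hh | hh
      · rw [abs_of_nonneg hh, pp_zero (p := p - 1) (x := -d) (by linarith) (by linarith)]
        ring
      · rw [abs_of_nonpos hh, pp_zero (p := p - 1) (x := d) (by linarith) hh]
        ring
    have hint : ∫ v in Ioi (0 : ℝ), ww p v * rr p (dg a) (dg fun _ : Unit => d) v = 0 := by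
      rw [setIntegral_congr_fun (g := fun _ => (0 : ℝ)) measurableSet_Ioi (fun v hv => by
        have hv0 : (0 : ℝ) < v := hv
        simp only [rr]
        rw [t0 v hv0.le, t0 0 le_rfl, e0]
        ring)]
      simp
    have g1 : G p (dg a) (dg fun _ : Unit => d) = (2 ^ (p - 1) - 1) * |d| ^ p := by
      have := G_abs (p := p) hp0 (fun _ : Unit => d)
      simpa using this
    have g2 : m1 p a (dg fun _ : Unit => d) = |d| ^ p := by
      have := m1_abs (p := p) (fun _ : Unit => d) (fun _ => h0)
      simpa using this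
    unfold FF5 JJ
    rw [hint, e0, t0 0 le_rfl, g1, g2]
    ring

theorem FF5_diag {p : ℝ} (h5 : 5 < p) (h6 : p < 6) (hI : IntRR p) {c d : ι → ℝ}
    (hc : ∀ i, 0 < c i) (hd : ∀ i, |d i| ≤ c i) : FF5 p c (dg d) = 0 := by
  have h := pair_diag hc hd
  have hs : ∀ i, IsPair (dg fun _ : Unit => c i) (dg fun _ : Unit => d i) := fun i =>
    pair_diag (fun _ => hc i) (fun _ => hd i)
  have key : FF5 p c (dg d) = ∑ i, FF5 p (fun _ : Unit => c i) (dg fun _ : Unit => d i) := by
    have et : ∀ z, tau p (dg c) (dg d) z = ∑ i, tau p (dg fun _ : Unit => c i)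
        (dg fun _ : Unit => d i) z := by
      intro z
      rw [tau_diag]
      apply Finset.sum_congr rfl
      intro i _
      rw [tau_diag]
      simp
    have ee : eta p (dg c) (dg d) 0 = ∑ i, eta p (dg fun _ : Unit => c i)
        (dg fun _ : Unit => d i) 0 := by
      rw [eta_diag (by linarith) h]
      apply Finset.sum_congr rfl
      intro i _
      rw [eta_diag (by linarith) (hs i)]
      simp
    have er : ∀ z, ww p z * rr p (dg c) (dg d) z = ∑ i, ww p z * rr p (dg fun _ : Unit => c i)
        (dg fun _ : Unit => d i) z := by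
      intro z
      unfold rr
      rw [et, et, ee, ← Finset.mul_sum, Finset.sum_add_distrib, Finset.sum_sub_distrib,
        Finset.sum_mul]
    have ei : ∫ v in Ioi (0 : ℝ), ww p v * rr p (dg c) (dg d) v =
        ∑ i, ∫ v in Ioi (0 : ℝ), ww p v * rr p (dg fun _ : Unit => c i)
          (dg fun _ : Unit => d i) v := by
      simp only [er]
      exact integral_finsetSum _ fun i _ => hI Unit _ _ (fun _ => hc i) (hs i)
    have eg : G p (dg c) (dg d) = ∑ i, G p (dg fun _ : Unit => c i) (dg fun _ : Unit => d i) := by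
      rw [G_diag]
      apply Finset.sum_congr rfl
      intro i _
      rw [G_diag]
      simp
    have em : m1 p c (dg d) = ∑ i, m1 p (fun _ : Unit => c i) (dg fun _ : Unit => d i) := by
      rw [m1_diag]
      apply Finset.sum_congr rfl
      intro i _
      rw [m1_diag]
      simp
    unfold FF5 JJ
    rw [ei, ee, et 0, eg, em]
    simp only [Finset.sum_sub_distrib, Finset.mul_sum]
  rw [key]
  exact Finset.sum_eq_zero fun i _ => FF5_scalar h5 h6 hI (hc i) (hd i)

end Pool.Agent.RC.REP
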