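import Pool.Agent.Lib_helper11.GC56.S3

/-!
# The representation of `G` on `(5,6)`: gluing
-/

open scoped BigOperators ComplexOrder Kronecker MatrixOrder Topology ENNReal
open MeasureTheory Set Matrix Filter

namespace Pool.Agent.RC.REP

open S24 SER DEC INE LAY

variable {ι : Type} [Fintype ι] [DecidableEq ι]

theorem FF5_zero {p : ℝ} (h5 : 5 < p) (h6 : p < 6) (hI : IntRR p) {a : ι → ℝ}
    (ha : ∀ i, 0 < a i) {D : Matrix ι ι ℂ} (h : IsPair (dg a) D) {c d : ι → ℝ}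
    (hc : ∀ i, 0 < c i) (hd : ∀ i, |d i| ≤ c i)
    (ht0 : tau p (dg a) D 0 = tau p (dg c) (dg d) 0)
    (he0 : ∀ t : ℝ, 0 ≤ t → eta p (dg (sh a t)) D 0 = eta p (dg (sh c t)) (dg d) 0)
    (hlim : Tendsto (fun t : ℝ => ∫ v in Ioi (0 : ℝ), ww p v *
      (tau p (dg (sh a t)) D v - tau p (dg (sh c t)) (dg d) v)) atTop (𝓝 0))
    (hE : ∀ L : ℝ, Tendsto (fun t : ℝ => JJ p (sh a t) D - JJ p (sh c t) (dg d)) atTop (𝓝 L) →
      L = 0) : FF5 p a D = 0 := by
  have h' := pair_diag hc hd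
  have hsh : ∀ (b : ι → ℝ), (∀ i, 0 < b i) → ∀ t : ℝ, 0 ≤ t → ∀ i, 0 < sh b t i := by
    intro b hb t ht i
    unfold sh; have := hb i; linarith
  have key : ∀ t : ℝ, 0 ≤ t → JJ p (sh a t) D - JJ p (sh c t) (dg d) =
      FF5 p a D + (Bc (p - 1))⁻¹ * ∫ v in Ioi (0 : ℝ), ww p v *
        (tau p (dg (sh a t)) D v - tau p (dg (sh c t)) (dg d) v) := by
    intro t ht
    have ia := hI ι a D ha h
    have iat := hI ι (sh a t) D (hsh a ha t ht) (pair_sh h ht)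
    have ic := hI ι c (dg d) hc h'
    have ict := hI ι (sh c t) (dg d) (hsh c hc t ht) (pair_sh h' ht)
    have s1 := shift h5 h6 ha h ht ia iat
    have s2 := shift h5 h6 hc h' ht ic ict
    have s3 := FF5_diag h5 h6 hI hc hd
    have e1 : ∫ v in Ioi (0 : ℝ), ww p v *
        (tau p (dg (sh a t)) D v - tau p (dg (sh c t)) (dg d) v) =
        (∫ v in Ioi (0 : ℝ), ww p v * rr p (dg (sh a t)) D v) -
        ∫ v in Ioi (0 : ℝ), ww p v * rr p (dg (sh c t)) (dg d) v := by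
      rw [← integral_sub iat ict]
      apply setIntegral_congr_fun measurableSet_Ioi
      intro v _
      simp only [rr]
      rw [he0 t ht, tau_sh_zero, tau_sh_zero, ht0]
      ring
    have s4 : FF5 p (sh a t) D - FF5 p (sh c t) (dg d) = FF5 p a D := by
      rw [s1, s2, s3, sub_zero]
    rw [e1, ← s4]
    unfold FF5
    rw [he0 t ht, tau_sh_zero, tau_sh_zero, ht0]
    ring
  apply hE
  have h1 : Tendsto (fun t : ℝ => FF5 p a D + (Bc (p - 1))⁻¹ * ∫ v in Ioi (0 : ℝ), ww p v *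
        (tau p (dg (sh a t)) D v - tau p (dg (sh c t)) (dg d) v)) atTop
      (𝓝 (FF5 p a D + (Bc (p - 1))⁻¹ * 0)) := (hlim.const_mul _).const_add _
  rw [mul_zero, add_zero] at h1
  refine h1.congr' ?_
  filter_upwards [eventually_ge_atTop 0] with t ht
  exact (key t ht).symm

theorem rep_of_zero {p : ℝ} {a : ι → ℝ} {D : Matrix ι ι ℂ} (h : FF5 p a D = 0) :
    G p (dg a) D = p * (p - 1) / 2 * m1 p a D +
      (2 ^ (p - 1) - 1 - p * (p - 1) / 2) * tau p (dg a) D 0 +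
      (2 ^ (p - 2) + p - 2 - p * (p - 1) / 2) * eta p (dg a) D 0 +
      (Bc (p - 1))⁻¹ * ∫ v in Ioi (0 : ℝ), v ^ (3 - p) * (((1 + v) ^ 3)⁻¹ * (1 + 2 * v)⁻¹) *
        (tau p (dg a) D v - tau p (dg a) D 0 + eta p (dg a) D 0 * v) := by
  unfold FF5 JJ ww rr at h
  linarith

end Pool.Agent.RC.REP
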