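import Pool.Agent.Lib_helper11.GC56.S4
import Pool.Agent.Lib_helper11.GC56.K
import Pool.Agent.Lib_helper26.G56.ExM

/-!
# The representation of `G` on `(5,6)`: the limit of the comparison
-/

open scoped BigOperators ComplexOrder Kronecker MatrixOrder Topology ENNReal
open MeasureTheory Set Matrix Filter

namespace Pool.Agent.RC.REP

open S24 SER DEC INE LAY

variable {ι : Type} [Fintype ι] [DecidableEq ι]

theorem JJ_ex {p : ℝ} (h5 : 5 < p) (h6 : p < 6) {a : ι → ℝ} (ha : ∀ i, 0 < a i)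
    {D : Matrix ι ι ℂ} (h : IsPair (dg a) D) : Ex p (fun t => JJ p (sh a t) D) :=
  (Ex_G h5 h6 a D h).sub ((Ex_m1 h5 h6 a D ha).const_mul _)

theorem JJ_lim {p : ℝ} (h5 : 5 < p) (h6 : p < 6) {a c : ι → ℝ} (ha : ∀ i, 0 < a i)
    (hc : ∀ i, 0 < c i) {D D' : Matrix ι ι ℂ} (h : IsPair (dg a) D) (h' : IsPair (dg c) D')
    {L : ℝ} (hL : Tendsto (fun t : ℝ => JJ p (sh a t) D - JJ p (sh c t) D') atTop (𝓝 L)) :
    L = 0 :=
  ((JJ_ex h5 h6 ha h).sub (JJ_ex h5 h6 hc h')).lim h5 hL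

/-- the comparison with a commuting pair, for all pairs -/
def PinLim (p : ℝ) : Prop :=
  ∀ (ι : Type) [Fintype ι] [DecidableEq ι] (a : ι → ℝ) (D : Matrix ι ι ℂ), (∀ i, 0 < a i) →
    IsPair (dg a) D → ∃ c d : ι → ℝ, (∀ i, 0 < c i) ∧ (∀ i, |d i| ≤ c i) ∧
      tau p (dg a) D 0 = tau p (dg c) (dg d) 0 ∧
      (∀ t : ℝ, 0 ≤ t → eta p (dg (sh a t)) D 0 = eta p (dg (sh c t)) (dg d) 0) ∧
      Tendsto (fun t : ℝ => ∫ v in Ioi (0 : ℝ), ww p v *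
        (tau p (dg (sh a t)) D v - tau p (dg (sh c t)) (dg d) v)) atTop (𝓝 0)

theorem rep56_of {p : ℝ} (h5 : 5 < p) (h6 : p < 6) (hI : IntRR p) (hP : PinLim p)
    {a : ι → ℝ} (ha : ∀ i, 0 < a i) {D : Matrix ι ι ℂ} (h : IsPair (dg a) D) :
    IntegrableOn (fun v : ℝ => v ^ (3 - p) * (((1 + v) ^ 3)⁻¹ * (1 + 2 * v)⁻¹) *
      (tau p (dg a) D v - tau p (dg a) D 0 + eta p (dg a) D 0 * v)) (Ioi 0) ∧
    G p (dg a) D = p * (p - 1) / 2 * (∑ i, ∑ j, ‖D i j‖ ^ 2 * hk p (a i) (a j)) +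
      (2 ^ (p - 1) - 1 - p * (p - 1) / 2) * tau p (dg a) D 0 +
      (2 ^ (p - 2) + p - 2 - p * (p - 1) / 2) * eta p (dg a) D 0 +
      (-Real.sin (Real.pi * p) / Real.pi) * ∫ v in Ioi (0 : ℝ),
        v ^ (3 - p) * (((1 + v) ^ 3)⁻¹ * (1 + 2 * v)⁻¹) *
        (tau p (dg a) D v - tau p (dg a) D 0 + eta p (dg a) D 0 * v) := by
  refine ⟨hI ι a D ha h, ?_⟩
  obtain ⟨c, d, hc, hd, ht0, he0, hlim⟩ := hP ι a D ha h
  have := rep_of_zero (FF5_zero h5 h6 hI ha h hc hd ht0 he0 hlim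
    (fun L hL => JJ_lim h5 h6 ha hc h (pair_diag hc hd) hL))
  rw [Bc_eq h5 h6] at this
  exact this

end Pool.Agent.RC.REP
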